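import Pool.Agent.H23.QCF.Lib
import Pool.Agent.H32.QC.TargetsL

/-!
# Row KLSL: what comes from below is trivial at the places which do not split
-/

set_option autoImplicit false

open NumberField IsDedekindDomain Pool.Agent.H23.QCF
open Pool.Agent.H32.QC (Sol hil Iso FPl Pl ic hs sqAt HasseConic ProdFormula Prescribed)

namespace Pool.Agent.H81.QCF.LSL

lemma sol_map {L M : Type*} [Field L] [Field M] (f : L →+* M) {a b : L} (h : Sol a b) :
    Sol (f a) (f b) := by
  obtain ⟨x, y, z, hne, hxyz⟩ := h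
  refine ⟨f x, f y, f z, ?_, ?_⟩
  · rcases hne with h | h | h
    · exact Or.inl (by simpa using h)
    · exact Or.inr (Or.inl (by simpa using h))
    · exact Or.inr (Or.inr (by simpa using h))
  · rw [← map_pow, hxyz]
    simp

lemma sol_symm {L : Type*} [Field L] {a b : L} (h : Sol a b) : Sol b a := by
  obtain ⟨x, y, z, hne, hxyz⟩ := h
  refine ⟨y, x, z, ?_, by rw [hxyz]; ring⟩
  tauto

lemma sol_sq {L : Type*} [Field L] {a b : L} (h : IsSquare b) : Sol a b := by
  obtain ⟨c, rfl⟩ := h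
  exact ⟨0, 1, c, Or.inr (Or.inl one_ne_zero), by ring⟩

lemma hil_neg {L : Type*} [Field L] {a b : L} (h : ¬ Sol a b) : hil a b = -1 := by
  rcases hil_pm a b with h1 | h1
  · exact absurd ((hil_eq_one_iff a b).1 h1) h
  · exact h1

lemma hil_symm {L : Type*} [Field L] (a b : L) : hil a b = hil b a := by
  by_cases h : Sol a b
  · rw [(hil_eq_one_iff a b).2 h, (hil_eq_one_iff b a).2 (sol_symm h)]
  · rw [hil_neg h, hil_neg (fun h' => h (sol_symm h'))]

lemma sol_scale {L : Type*} [Field L] {a b r : L} (hr : r ≠ 0) (h : Sol a (b * r ^ 2)) :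
    Sol a b := by
  obtain ⟨x, y, z, hne, hxyz⟩ := h
  refine ⟨x, r * y, z, ?_, by rw [hxyz]; ring⟩
  rcases hne with h | h | h
  · exact Or.inl h
  · exact Or.inr (Or.inl (mul_ne_zero hr h))
  · exact Or.inr (Or.inr h)

/-- a solution with `y = 0` makes the first coefficient a square -/
lemma isSquare_of {L : Type*} [Field L] {b X Z : L} (hne : X ≠ 0 ∨ Z ≠ 0)
    (h : Z ^ 2 = b * X ^ 2) : IsSquare b := by
  have hX : X ≠ 0 := by
    rintro rfl
    rcases hne with h1 | h1
    · exact h1 rfl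
    · apply h1
      have : Z ^ 2 = 0 := by rw [h]; ring
      exact pow_eq_zero_iff two_ne_zero |>.1 this
  refine ⟨Z / X, ?_⟩
  field_simp
  linear_combination -h

lemma sol_div {L : Type*} [Field L] {a b z : L} (hz : z ≠ 0) (h1 : Sol b z)
    (h2 : Sol b (a * z)) : Sol b a := by
  by_cases hb : IsSquare b
  · exact sol_symm (sol_sq hb)
  obtain ⟨X, Y, Z, hne, h⟩ := h1
  obtain ⟨X', Y', Z', hne', h'⟩ := h2
  have hY : Y ≠ 0 := by
    rintro rfl
    refine hb (isSquare_of (X := X) (Z := Z) (by tauto) ?_)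
    rw [h]; ring
  have hY' : Y' ≠ 0 := by
    rintro rfl
    refine hb (isSquare_of (X := X') (Z := Z') (by tauto) ?_)
    rw [h']; ring
  refine ⟨Z * X' + X * Z', z * Y * Y', Z * Z' + b * X * X',
    Or.inr (Or.inl (mul_ne_zero (mul_ne_zero hz hY) hY')), ?_⟩
  linear_combination (Z' ^ 2 - b * X' ^ 2) * h + z * Y ^ 2 * h'

theorem pf_LSL (hfc : T_FUNC) (hndg : Pool.Agent.H32.QC.T_NDG) (hbim : Pool.Agent.H32.QC.T_BIM)
    (hniv : Pool.Agent.H32.QC.T_NIV) : T_LSL := by
  intro K E _ _ _ _ _ t s hQ w hw a b ha hb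
  cases w with
  | inr φ =>
    exfalso
    apply hw
    show IsSquare ((φ.comp (algebraMap K E)) t)
    refine ⟨φ s, ?_⟩
    rw [RingHom.comp_apply, ← hQ.sq, map_pow, pow_two]
  | inl w =>
    obtain ⟨f, hf⟩ := hfc K E w
    obtain ⟨h2, hni, -⟩ := hniv K (w.under (𝓞 K))
    have hw' : ¬ IsSquare (ic (w.under (𝓞 K)) t) := hw
    have ht : t ≠ 0 := by
      rintro rfl
      exact hQ.nsq ⟨0, by simp⟩
    have hs0 : s ≠ 0 := by
      rintro rfl
      have h3 := hQ.sq
      rw [zero_pow two_ne_zero] at h3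
      exact ht ((map_eq_zero (algebraMap K E)).1 h3.symm)
    obtain ⟨α, hα⟩ : ∃ α, α = ic (w.under (𝓞 K)) a := ⟨_, rfl⟩
    obtain ⟨β, hβ⟩ : ∃ β, β = ic (w.under (𝓞 K)) b := ⟨_, rfl⟩
    obtain ⟨τ, hτ⟩ : ∃ τ, τ = ic (w.under (𝓞 K)) t := ⟨_, rfl⟩
    have hα0 : α ≠ 0 := by rw [hα]; exact (map_ne_zero _).2 ha
    have hβ0 : β ≠ 0 := by rw [hβ]; exact (map_ne_zero _).2 hb
    have hτ0 : τ ≠ 0 := by rw [hτ]; exact (map_ne_zero _).2 ht
    rw [← hτ] at hw'
    have hfτ : f τ = (ic w s) ^ 2 := by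
      rw [hτ, hf, ← hQ.sq, map_pow]
    have hr : ic w s ≠ 0 := (map_ne_zero _).2 hs0
    show hil (ic w (algebraMap K E a)) (ic w (algebraMap K E b)) = 1
    rw [← hf, ← hf, ← hα, ← hβ, hil_eq_one_iff]
    by_cases hs : Sol α β
    · exact sol_map f hs
    · have hβs : ¬ IsSquare β := fun h => hs (sol_sq h)
      obtain ⟨z, hz0, h3, h4⟩ := hndg _ h2 hni τ β hτ0 hβ0 hw' hβs
      have h5 : hil β α = -1 := by rw [hil_symm]; exact hil_neg hs
      have h6 : Sol β (α * z) := by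
        rw [← hil_eq_one_iff, hbim _ h2 hni β α z hβ0 hα0 hz0, h5, h4]
        norm_num
      have h7 : Sol z (β * τ) := by
        rw [← hil_eq_one_iff, hbim _ h2 hni z β τ hz0 hβ0 hτ0, hil_symm z β, hil_symm z τ, h3, h4]
        norm_num
      have h8 : Sol (f z) (f β) := by
        have h9 := sol_map f h7
        rw [map_mul, hfτ] at h9
        exact sol_scale hr h9
      have h10 : Sol (f β) (f α * f z) := by
        have h9 := sol_map f h6
        rwa [map_mul] at h9
      exact sol_symm (sol_div ((map_ne_zero f).2 hz0) (sol_symm h8) h10)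

end Pool.Agent.H81.QCF.LSL
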