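import Pool.Agent.H23.QCF.Lib

/-!
# Row KNSY: norms have trivial symbols
-/

set_option autoImplicit false

open NumberField IsDedekindDomain Pool.Agent.H23.QCF
open Pool.Agent.H32.QC (Sol hil Iso FPl Pl ic hs sqAt HasseConic ProdFormula Prescribed)

namespace Pool.Agent.H81.QCF

lemma sol_map {L M : Type*} [Field L] [Field M] (f : L →+* M) {a b : L} (h : Sol a b) :
    Sol (f a) (f b) := by
  obtain ⟨x, y, z, hne, hxyz⟩ := h
  refine ⟨f x, f y, f z, ?_, ?_⟩
  · rcases hne with h | h | h
    · exact Or.inl (by simpa using h)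
    · exact Or.inr (Or.inl (by simpa using h))
    · exact Or.inr (Or.inr (by simpa using h))
  · rw [← map_pow, hxyz]
    simp

lemma hs_of_sol {K : Type} [Field K] [NumberField K] {a b : K} (h : Sol a b) (p : Pl K) :
    hs p a b = 1 := by
  cases p with
  | inl v => exact (hil_eq_one_iff _ _).2 (sol_map (ic v) h)
  | inr φ => exact (hil_eq_one_iff _ _).2 (sol_map φ h)

theorem pf_NSY (hsig : T_SIG) (htr : T_TRANS) (hv1 : T_VONE) : T_NSY := by
  intro K E _ _ _ _ _ t s hQ S
  obtain ⟨σ, hσs, -, hN, -, hrep, hform, -⟩ := hsig K E t s hQ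
  have hsol : ∀ x : E, x ≠ 0 → Sol (Algebra.norm K x) t := by
    intro x hx
    obtain ⟨a, b, rfl⟩ := hrep x
    refine ⟨1, b, a, Or.inl one_ne_zero, ?_⟩
    rw [hform]
    ring
  refine ⟨?_, ?_, ?_⟩
  · rintro y ⟨x, hx, rfl⟩ v hv
    obtain ⟨w, hw⟩ := over_exists E v
    have h1 : w.valuation E (x : E) = 1 := hx w (by
      show w.under (𝓞 K) ∉ S
      rw [hw]; exact hv)
    obtain ⟨w', hw', hval⟩ := (htr K E t s hQ σ hσs).1 w
    have h2 : w'.valuation E (x : E) = 1 := hx w' (by
      show w'.under (𝓞 K) ∉ S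
      rw [hw', hw]; exact hv)
    have h3 : w.valuation E (algebraMap K E (Algebra.norm K (x : E))) = 1 := by
      rw [hN, map_mul, h1, ← hval, h2, mul_one]
    have h4 := (hv1 K E w _).1 h3
    rw [hw] at h4
    exact h4
  · intro x p
    exact hs_of_sol (hsol (x : E) x.ne_zero) p
  · intro a ha
    constructor
    · rintro ⟨x, y, z, hne, hxyz⟩
      have hx : x ≠ 0 := by
        rintro rfl
        by_cases hy : y = 0
        · subst hy
          have hz : z = 0 := by
            have : z ^ 2 = 0 := by rw [hxyz]; ring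
            exact pow_eq_zero_iff (two_ne_zero) |>.1 this
          simp [hz] at hne
        · apply hQ.nsq
          refine ⟨z / y, ?_⟩
          field_simp
          rw [pow_two] at hxyz
          linear_combination -hxyz
      refine ⟨algebraMap K E (z / x) + algebraMap K E (y / x) * s, ?_⟩
      rw [hform]
      field_simp
      linear_combination hxyz
    · rintro ⟨x, rfl⟩
      have hx : x ≠ 0 := by
        rintro rfl
        simp at ha
      exact hsol x hx

end Pool.Agent.H81.QCF
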